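import Pool.Agent.helper48.AN.SpecA

/-!
# Project an (MP_263b92_ag), module CE: injectivity
-/

set_option autoImplicit false

namespace AN

open scoped Classical

theorem CE_PS_pow {R : Type} [CommRing R] {f : LS R} (hf : f ∈ PS R) (n : ℕ) : f ^ n ∈ PS R := by
  induction n with
  | zero => rw [pow_zero]; exact one_mem_PS
  | succ n ih => rw [pow_succ]; exact PS_mul ih hf

theorem CE (hKB : KB_stmt) (hKD : KD_stmt) (hCC : CC_stmt) (hCD : CD_stmt) : CE_stmt := by
  intro p hp R _ _ g γ a hK v α hα o ho hsum hdα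
  obtain ⟨_, _, _, _, _, _, kb7, kb8⟩ := hKB R g γ a hK
  obtain ⟨kd1, kd2, kd3, _, _⟩ := hKD R g γ a hK
  have hp0 : 0 < p := hp.out.pos
  have hdo : dd o = 0 := by
    have h1 : dd (∑ j, LS.C (v j) * (mono (-(γ j : ℤ)) (1 : R)) ^ p) = 0 := by
      rw [map_sum]
      refine Finset.sum_eq_zero fun j _ => ?_
      rw [dd_mul, dd_C, dd_pow_char p _ p dvd_rfl]
      ring
    rw [hsum, map_add, hdα, zero_add] at h1
    exact h1
  funext i
  obtain ⟨ζ, hζ, y, hy⟩ := hCD p R g γ a hK _ (kd1 i)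
  set η := om γ a ((γ i : ℤ) - 1) with hη
  have h1 : ∑ j, v j * res ((mono (-(γ j : ℤ)) (1 : R)) ^ p * ζ) = v i := by
    rw [Finset.sum_eq_single i]
    · rw [hCC p R _ _ _ _ hy, kd3 i i, if_pos rfl, one_pow, mul_one]
    · intro j _ hji
      rw [hCC p R _ _ _ _ hy, kd3 i j, if_neg (Ne.symm hji), zero_pow hp0.ne', mul_zero]
    · intro h
      exact absurd (Finset.mem_univ i) h
  have h2 : ∑ j, v j * res ((mono (-(γ j : ℤ)) (1 : R)) ^ p * ζ) = res ((α + o) * ζ) := by
    rw [← hsum, Finset.sum_mul, res_sum]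
    refine Finset.sum_congr rfl fun j _ => ?_
    rw [mul_assoc, C_mul, res_smul]
  have h3 : res (α * ζ) = 0 := kb8 _ (kb7 _ hα _ hζ)
  have h4 : res (o * ζ) = 0 := by
    rw [hy, mul_add, res_add]
    have h5 : res (o * (η ^ p * mono ((p : ℤ) - 1) 1)) = 0 := by
      refine res_PS (PS_mul ho (PS_mul (CE_PS_pow (kd2 i) p) ?_))
      exact GE_mono (by omega) (mono_mem_GE _ _)
    have h6 : o * dd y = dd (o * y) := by
      rw [dd_mul, hdo, zero_mul, zero_add]
    rw [h5, h6, res_dd, add_zero]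
  rw [← h1, h2, add_mul, res_add, h3, h4, add_zero]
  rfl

end AN
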